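import Pool.Agent.H84.RX.Int

/-!
# Intersection numbers of lists of elements of a group

The cells are the nonempty lists of elements of `P` (degenerate lists are allowed), the faces of a list are the
lists without one entry.
-/

set_option autoImplicit false

open Finset Pointwise

namespace Pool.Agent.H84.RX

open Pool.Agent.H37.TM Pool.Agent.H65.RM

/-- Intersection numbers of lists of elements of `P`. -/
structure InterL (P : Type) [Group P] (n : ℕ) (H : List P → List P → ZMod 2) : Prop where
  nil_left : ∀ τ, H [] τ = 0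
  nil_right : ∀ σ, H σ [] = 0
  rel : ∀ σ τ, σ ≠ [] → τ ≠ [] →
    ∑ i ∈ Finset.range σ.length, H (σ.eraseIdx i) τ +
      ∑ i ∈ Finset.range τ.length, H σ (τ.eraseIdx i) = H σ τ + H τ σ
  top : ∀ σ τ, n + 2 < σ.length + τ.length → H σ τ = 0
  one : ∀ g, H [g] [g] = 1
  fin : ∀ F : Finset (List P), ∃ E : Finset P, ∀ σ ∈ F, ∀ τ ∈ F, ∀ p q : P,
    H (σ.map (p * ·)) (τ.map (q * ·)) ≠ 0 → p⁻¹ * q ∈ E

theorem erase_erase {P : Type} : ∀ (l : List P) (i j : ℕ), i ≤ j →
    (l.eraseIdx i).eraseIdx j = (l.eraseIdx (j + 1)).eraseIdx i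
  | [], i, j, _ => by simp
  | a :: l, 0, j, _ => by simp
  | a :: l, i + 1, 0, h => absurd h (by omega)
  | a :: l, i + 1, j + 1, h => by
    simp only [List.eraseIdx_cons_succ]
    rw [erase_erase l i j (by omega)]

/-- the nonempty lists -/
abbrev NL (P : Type) : Type := {l : List P // l ≠ []}

/-- the basis element of a list, zero for the empty list -/
noncomputable def sub {P : Type} (m : List P) : NL P →₀ ZMod 2 :=
  open Classical in if h : m ≠ [] then Finsupp.single ⟨m, h⟩ 1 else 0

/-- the extension by zero -/
noncomputable def ext {P : Type} (H : NL P → NL P → ZMod 2) (σ τ : List P) : ZMod 2 :=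
  open Classical in if h : σ ≠ [] ∧ τ ≠ [] then H ⟨σ, h.1⟩ ⟨τ, h.2⟩ else 0

theorem sub_ne {P : Type} {m : List P} (h : m ≠ []) : sub m = Finsupp.single ⟨m, h⟩ 1 := by
  unfold sub
  rw [dif_pos h]

theorem sub_nil {P : Type} : sub ([] : List P) = 0 := by
  unfold sub
  rw [dif_neg (fun h => h rfl)]

theorem ext_ne {P : Type} (H : NL P → NL P → ZMod 2) {σ τ : List P} (h1 : σ ≠ []) (h2 : τ ≠ []) :
    ext H σ τ = H ⟨σ, h1⟩ ⟨τ, h2⟩ := by
  unfold ext
  rw [dif_pos ⟨h1, h2⟩]

theorem ext_nil_left {P : Type} (H : NL P → NL P → ZMod 2) (τ : List P) : ext H [] τ = 0 := by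
  unfold ext
  rw [dif_neg (fun h => h.1 rfl)]

theorem ext_nil_right {P : Type} (H : NL P → NL P → ZMod 2) (σ : List P) : ext H σ [] = 0 := by
  unfold ext
  rw [dif_neg (fun h => h.2 rfl)]

/-- the boundary of a list -/
noncomputable def bdl {P : Type} (x : NL P) : NL P →₀ ZMod 2 :=
  ∑ i ∈ Finset.range x.1.length, sub (x.1.eraseIdx i)

/-- the action on the lists -/
@[instance_reducible] def actL (P : Type) [Group P] : MulAction P (NL P) where
  smul p x := ⟨x.1.map (p * ·), fun h => x.2 (List.map_eq_nil_iff.1 h)⟩
  one_smul x := by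
    apply Subtype.ext
    change x.1.map (1 * ·) = x.1
    simp
  mul_smul p q x := by
    apply Subtype.ext
    change x.1.map ((p * q) * ·) = (x.1.map (q * ·)).map (p * ·)
    rw [List.map_map]
    refine List.map_congr_left fun a _ => ?_
    exact mul_assoc p q a

theorem lin_sub {P N : Type} [AddCommGroup N] [Module (ZMod 2) N] (f : NL P → N) {m : List P}
    (h : m ≠ []) : lin f (sub m) = f ⟨m, h⟩ := by
  rw [sub_ne h, lin_single]

/-- **Intersection numbers of lists.** -/
theorem exists_inter_list {P U : Type} [Group P] [DecidableEq U] [MulAction P U]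
    {K B : Set (Finset U)} {n : ℕ} (hM : Mfd K B n) (hK : Acyc K) (hA : PAct P K B) :
    ∃ H : List P → List P → ZMod 2, InterL P n H := by
  classical
  let _ := actL P
  have hsm : ∀ (p : P) (x : NL P), (p • x).1 = x.1.map (p * ·) := fun p x => rfl
  have hlen : ∀ x : NL P, 0 < x.1.length := fun x => List.length_pos_iff.2 x.2
  have hsub : ∀ (p : P) (m : List P), sub (m.map (p * ·)) = (sub m).mapDomain (p • ·) := by
    intro p m
    by_cases h : m = []
    · subst h
      rw [List.map_nil, sub_nil, Finsupp.mapDomain_zero]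
    · have h' : m.map (p * ·) ≠ [] := fun h' => h (List.map_eq_nil_iff.1 h')
      rw [sub_ne h, sub_ne h', Finsupp.mapDomain_single]
      rfl
  have hbd : ∀ m : List P, lin bdl (sub m) = ∑ j ∈ Finset.range m.length, sub (m.eraseIdx j) := by
    intro m
    by_cases h : m = []
    · subst h
      rw [sub_nil, map_zero, List.length_nil, Finset.range_zero, Finset.sum_empty]
    · rw [lin_sub bdl h]
      rfl
  have hX : Cells P (X := NL P) (fun x => x.1.length - 1) bdl := by
    refine ⟨?_, ?_, ?_, ?_, ?_, ?_⟩
    · rintro p ⟨l, hl⟩ h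
      have h1 : l.map (p * ·) = l := congrArg Subtype.val h
      cases l with
      | nil => exact absurd rfl hl
      | cons a l =>
        rw [List.map_cons] at h1
        exact mul_eq_right.1 (List.cons.inj h1).1
    · intro p x
      change (x.1.map (p * ·)).length - 1 = x.1.length - 1
      rw [List.length_map]
    · intro x y h
      unfold bdl at h
      rw [Finsupp.finsetSum_apply] at h
      obtain ⟨i, hi, hne⟩ := exists_ne_zero_of_sum_ne_zero h
      rw [Finset.mem_range] at hi
      have h1 : x.1.eraseIdx i = y.1 := by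
        by_cases h2 : x.1.eraseIdx i = []
        · rw [h2, sub_nil] at hne
          exact absurd rfl hne
        · rw [sub_ne h2, Finsupp.single_apply] at hne
          by_contra h3
          apply hne
          rw [if_neg]
          intro h4
          exact h3 (congrArg Subtype.val h4)
      have h2 := hlen y
      have h3 : (x.1.eraseIdx i).length = x.1.length - 1 := List.length_eraseIdx_of_lt hi
      rw [h1] at h3
      change y.1.length - 1 + 1 = x.1.length - 1
      omega
    · intro p x
      unfold bdl
      rw [Finsupp.mapDomain_finsetSum, hsm, List.length_map]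
      refine Finset.sum_congr rfl fun i _ => ?_
      rw [List.eraseIdx_map, hsub]
    · intro x
      have h1 : lin bdl (bdl x) = ∑ i ∈ Finset.range x.1.length,
          ∑ j ∈ Finset.range (x.1.length - 1), sub ((x.1.eraseIdx i).eraseIdx j) := by
        conv_lhs => rw [show bdl x = ∑ i ∈ Finset.range x.1.length, sub (x.1.eraseIdx i) from rfl]
        rw [map_sum]
        refine Finset.sum_congr rfl fun i hi => ?_
        rw [hbd, List.length_eraseIdx_of_lt (Finset.mem_range.1 hi)]
      rw [h1, Finset.sum_sigma']
      refine Finset.sum_involution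
        (fun p _ => if p.1 ≤ p.2 then ⟨p.2 + 1, p.1⟩ else ⟨p.2, p.1 - 1⟩) ?_ ?_ ?_ ?_
      · rintro ⟨i, j⟩ h
        by_cases hij : i ≤ j
        · simp only [if_pos hij]
          rw [erase_erase _ _ _ hij]
          exact add_self_mod _
        · simp only [if_neg hij]
          have h2 := erase_erase x.1 j (i - 1) (by omega)
          rw [Nat.sub_add_cancel (by omega : 1 ≤ i)] at h2
          rw [h2]
          exact add_self_mod _
      · rintro ⟨i, j⟩ h _ he
        by_cases hij : i ≤ j
        · simp only [if_pos hij] at he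
          have h2 : j + 1 = i := congrArg Sigma.fst he
          omega
        · simp only [if_neg hij] at he
          have h2 : j = i := congrArg Sigma.fst he
          omega
      · rintro ⟨i, j⟩ h
        rw [Finset.mem_sigma, Finset.mem_range, Finset.mem_range] at h
        have h1 : i < x.1.length := h.1
        have h2 : j < x.1.length - 1 := h.2
        by_cases hij : i ≤ j
        · simp only [if_pos hij]
          rw [Finset.mem_sigma, Finset.mem_range, Finset.mem_range]
          exact ⟨(by omega : j + 1 < x.1.length), (by omega : i < x.1.length - 1)⟩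
        · simp only [if_neg hij]
          rw [Finset.mem_sigma, Finset.mem_range, Finset.mem_range]
          exact ⟨(by omega : j < x.1.length), (by omega : i - 1 < x.1.length - 1)⟩
      · rintro ⟨i, j⟩ h
        by_cases hij : i ≤ j
        · simp only [if_pos hij]
          rw [if_neg (by omega : ¬ j + 1 ≤ i)]
          rfl
        · simp only [if_neg hij]
          rw [if_pos (by omega : j ≤ i - 1), Nat.sub_add_cancel (by omega : 1 ≤ i)]
    · intro x hx
      have h1 : x.1.length = 2 := by
        have h2 := hlen x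
        have h3 : x.1.length - 1 = 1 := hx
        omega
      unfold bdl
      rw [map_sum, h1, Finset.sum_range_succ, Finset.sum_range_one, lin_sub, lin_sub]
      · exact add_self_mod _
      · intro h
        have := congrArg List.length h
        rw [List.length_eraseIdx_of_lt (by omega), h1] at this
        exact absurd this.symm (Nat.zero_ne_one)
      · intro h
        have := congrArg List.length h
        rw [List.length_eraseIdx_of_lt (by omega), h1] at this
        exact absurd this.symm (Nat.zero_ne_one)
  obtain ⟨H, hH⟩ := exists_inter_cells hX hM hK hA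
  refine ⟨ext H, ext_nil_left H, ext_nil_right H, ?_, ?_, ?_, ?_⟩
  · intro σ τ h1 h2
    have h3 := hH.rel ⟨σ, h1⟩ ⟨τ, h2⟩
    rw [ext_ne H h1 h2, ext_ne H h2 h1, ← h3]
    congr 1
    · change _ = lin _ (∑ i ∈ Finset.range σ.length, sub (σ.eraseIdx i))
      rw [map_sum]
      refine Finset.sum_congr rfl fun i _ => ?_
      by_cases h : σ.eraseIdx i = []
      · rw [h, sub_nil, map_zero, ext_nil_left]
      · rw [lin_sub _ h, ext_ne H h h2]
    · change _ = lin _ (∑ i ∈ Finset.range τ.length, sub (τ.eraseIdx i))
      rw [map_sum]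
      refine Finset.sum_congr rfl fun i _ => ?_
      by_cases h : τ.eraseIdx i = []
      · rw [h, sub_nil, map_zero, ext_nil_right]
      · rw [lin_sub _ h, ext_ne H h1 h]
  · intro σ τ h
    by_cases h1 : σ = []
    · rw [h1, ext_nil_left]
    by_cases h2 : τ = []
    · rw [h2, ext_nil_right]
    rw [ext_ne H h1 h2]
    apply hH.top
    have h3 := hlen ⟨σ, h1⟩
    have h4 := hlen ⟨τ, h2⟩
    change n < (σ.length - 1) + (τ.length - 1)
    change 0 < σ.length at h3
    change 0 < τ.length at h4
    omega
  · intro g
    rw [ext_ne H (List.cons_ne_nil g []) (List.cons_ne_nil g [])]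
    exact hH.one _ rfl
  · intro F
    refine ⟨(F.attach ×ˢ F.attach).biUnion fun z =>
      if h : z.1.1 ≠ [] ∧ z.2.1 ≠ [] then
        (hH.fin ⟨z.1.1, h.1⟩ ⟨z.2.1, h.2⟩).toFinset else ∅, ?_⟩
    intro σ hσ τ hτ p q hne
    by_cases h1 : σ = []
    · rw [h1, List.map_nil, ext_nil_left] at hne
      exact absurd rfl hne
    by_cases h2 : τ = []
    · rw [h2, List.map_nil, ext_nil_right] at hne
      exact absurd rfl hne
    rw [Finset.mem_biUnion]
    refine ⟨(⟨σ, hσ⟩, ⟨τ, hτ⟩), ?_, ?_⟩
    · exact Finset.mem_product.2 ⟨Finset.mem_attach _ _, Finset.mem_attach _ _⟩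
    · rw [dif_pos (show (⟨σ, hσ⟩ : {x // x ∈ F}).1 ≠ [] ∧ (⟨τ, hτ⟩ : {x // x ∈ F}).1 ≠ [] from
        ⟨h1, h2⟩), Set.Finite.mem_toFinset]
      refine ⟨p, ?_⟩
      have h3 : σ.map (p * ·) ≠ [] := fun h => h1 (List.map_eq_nil_iff.1 h)
      have h4 : τ.map (q * ·) ≠ [] := fun h => h2 (List.map_eq_nil_iff.1 h)
      rw [ext_ne H h3 h4] at hne
      rw [mul_inv_cancel_left]
      exact hne

end Pool.Agent.H84.RX
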