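import Pool.Agent.H65.RM.Man
import Pool.Agent.H65.RM.Equi
import Pool.Agent.H65.RM.Height

/-!
# Intersection numbers of abstract cells

A group `P` acts freely on a set `X` of cells with a boundary mod 2. A proper action of `P` on an acyclic homology
manifold gives intersection numbers of the cells. (Copies of the proofs of project RM, where the cells are the
pairs `(g, s)`.)
-/

set_option autoImplicit false
set_option linter.unusedSectionVars false

open Finset Pointwise

namespace Pool.Agent.H84.RX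

open Pool.Agent.H37.TM Pool.Agent.H65.RM

/-- a free action of `P` on the cells of an augmented complex mod 2 -/
structure Cells (P : Type) {X : Type} [Group P] [MulAction P X] (sz : X → ℕ)
    (bd : X → (X →₀ ZMod 2)) : Prop where
  free : ∀ (p : P) (x : X), p • x = x → p = 1
  sz_smul : ∀ (p : P) (x : X), sz (p • x) = sz x
  bd_sz : ∀ x y, bd x y ≠ 0 → sz y + 1 = sz x
  bd_smul : ∀ (p : P) (x : X), bd (p • x) = (bd x).mapDomain (p • ·)
  bd_bd : ∀ x, lin bd (bd x) = 0
  aug : ∀ x, sz x = 1 → lin (fun _ => (1 : ZMod 2)) (bd x) = 0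

/-- Intersection numbers of the cells. -/
structure InterX (P : Type) {X : Type} [Group P] [MulAction P X] (sz : X → ℕ)
    (bd : X → (X →₀ ZMod 2)) (n : ℕ) (H : X → X → ZMod 2) : Prop where
  rel : ∀ x y, lin (fun x' => H x' y) (bd x) + lin (fun y' => H x y') (bd y) = H x y + H y x
  top : ∀ x y, n < sz x + sz y → H x y = 0
  one : ∀ x, sz x = 0 → H x x = 1
  fin : ∀ x y, {p : P | ∃ q : P, H (q • x) ((q * p) • y) ≠ 0}.Finite

theorem lin_supp {X N : Type} [AddCommGroup N] [Module (ZMod 2) N] (f : X → N)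
    (x : X →₀ ZMod 2) : lin f x = ∑ c ∈ x.support, f c := by
  unfold lin
  rw [Finsupp.linearCombination_apply, Finsupp.sum]
  refine sum_congr rfl fun c hc => ?_
  have h : x c = 1 :=
    (by decide : ∀ a : ZMod 2, a ≠ 0 → a = 1) _ (Finsupp.mem_support_iff.1 hc)
  rw [h, one_smul]

variable {P X U : Type} [Group P] [MulAction P X] [DecidableEq U] [MulAction P U]
  {sz : X → ℕ} {bd : X → (X →₀ ZMod 2)}

theorem bd_zero (hX : Cells P sz bd) {x : X} (hx : sz x = 0) : bd x = 0 := by
  ext y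
  by_contra h
  have := hX.bd_sz x y h
  omega

/-- equivariant chain maps from the cells to the pairs of simplices -/
structure IsPsi (P : Type) {X U : Type} [Group P] [MulAction P X] [DecidableEq U] [MulAction P U]
    (sz : X → ℕ) (bd : X → (X →₀ ZMod 2)) (K B : Set (Finset U)) (n : ℕ)
    (Ψ : X → (Finset U × Finset U →₀ ZMod 2)) : Prop where
  mem : ∀ x, Ψ x ∈ TN K B n (sz x + 1)
  smul : ∀ (p : P) (x : X), Ψ (p • x) = (Ψ x).mapDomain (p • ·)
  bd : ∀ x, bdT K n (Ψ x) = (if sz x = 0 then Finsupp.single (∅, ∅) 1 else 0) + lin Ψ (bd x)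

/-- the cochain dual to the image of a cell -/
noncomputable def al {X U : Type} [DecidableEq U] (Ψ : X → (Finset U × Finset U →₀ ZMod 2))
    (x : X) (t : Finset U) : ZMod 2 := ∑ v ∈ t, Ψ x ({v}, t)

variable {K B : Set (Finset U)} {n : ℕ} {Ψ : X → (Finset U × Finset U →₀ ZMod 2)}

theorem al_empty (x : X) : al Ψ x ∅ = 0 := by
  unfold al
  rw [sum_empty]

theorem al_supp (hΨ : IsPsi P sz bd K B n Ψ) {x : X}
    {t : Finset U} (h : al Ψ x t ≠ 0) : t ∈ K ∧ t ∉ B ∧ t.card + sz x = n + 1 := by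
  unfold al at h
  obtain ⟨v, hv, hne⟩ := exists_ne_zero_of_sum_ne_zero h
  have h1 := (Finsupp.mem_supported _ _).1 (hΨ.mem x) (mem_coe.2 (Finsupp.mem_support_iff.2 hne))
  obtain ⟨-, -, h3, h4, h5⟩ := h1
  simp only [card_singleton] at h3 h4 h5
  exact ⟨h3, h4, by omega⟩

theorem al_fin (x : X) : {t | al Ψ x t ≠ 0}.Finite := by
  classical
  refine Set.Finite.subset (((Ψ x).support.image Prod.snd).finite_toSet) fun t ht => ?_
  obtain ⟨v, _, hne⟩ := exists_ne_zero_of_sum_ne_zero ht
  exact mem_coe.2 (mem_image.2 ⟨({v}, t), Finsupp.mem_support_iff.2 hne, rfl⟩)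

/-- the coboundary of the cochain of a cell is the sum of the cochains of its faces -/
theorem cob_al (hM : Mfd K B n) (hK : Acyc K) (hΨ : IsPsi P sz bd K B n Ψ) {x : X}
    {t : Finset U} (ht : t ∈ K ∨ t = ∅) :
    cob (al Ψ x) t = ∑ x' ∈ (bd x).support, al Ψ x' t := by
  classical
  rcases ht with ht | rfl
  · have h1 : ∀ v ∈ t, bdT K n (Ψ x) ({v}, t) =
        ∑ w ∈ t.erase v, Ψ x ({v, w}, t) + ∑ w ∈ t.erase v, Ψ x ({v}, t.erase w) := by
      intro v hv
      rw [bdT_apply hM (hK.lt 0) (hΨ.mem x) (singleton_nonempty v),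
        TotX.MX.D_of (toMX hM (hK.lt 0)) (singleton_nonempty v) (singleton_subset_iff.2 hv)
          (show t ∈ (toMX hM (hK.lt 0)).faces from ht), sdiff_singleton_eq_erase, ← sum_add_distrib]
      refine sum_congr rfl fun w _ => ?_
      rw [Finset.pair_comm]
    have h2 : ∀ v, bdT K n (Ψ x) ({v}, t) = ∑ x' ∈ (bd x).support, Ψ x' ({v}, t) := by
      intro v
      rw [hΨ.bd x, lin_supp, Finsupp.add_apply, Finsupp.finsetSum_apply]
      have h3 : (if sz x = 0 then Finsupp.single ((∅ : Finset U), (∅ : Finset U)) (1 : ZMod 2)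
          else 0) ({v}, t) = 0 := by
        split_ifs
        · rw [Finsupp.single_apply, if_neg]
          intro h
          exact (singleton_ne_empty v) (congrArg Prod.fst h).symm
        · rfl
      rw [h3, zero_add]
    have h3 : ∑ v ∈ t, bdT K n (Ψ x) ({v}, t) = cob (al Ψ x) t := by
      rw [sum_congr rfl h1, sum_add_distrib,
        TotX.sum_pairs_symm t (fun v w => Ψ x ({v, w}, t))
          (fun u w => by rw [Finset.pair_comm]), zero_add]
      unfold cob al
      rw [Finset.sum_sigma', Finset.sum_sigma']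
      refine sum_bij' (fun p _ => ⟨p.2, p.1⟩) (fun p _ => ⟨p.2, p.1⟩) ?_ ?_ ?_ ?_ ?_
      · rintro ⟨v, w⟩ h
        simp only [mem_sigma, mem_erase] at h ⊢
        exact ⟨h.2.2, fun h' => h.2.1 h'.symm, h.1⟩
      · rintro ⟨w, v⟩ h
        simp only [mem_sigma, mem_erase] at h ⊢
        exact ⟨h.2.2, fun h' => h.2.1 h'.symm, h.1⟩
      · rintro ⟨v, w⟩ _
        rfl
      · rintro ⟨v, w⟩ _
        rfl
      · rintro ⟨v, w⟩ _
        rfl
    rw [← h3, sum_congr rfl fun v _ => h2 v, sum_comm]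
    rfl
  · unfold cob
    rw [sum_empty]
    symm
    refine sum_eq_zero fun w _ => ?_
    rw [al_empty]

/-- the augmentation -/
theorem sum_al (hM : Mfd K B n) (hX : Cells P sz bd) (hΨ : IsPsi P sz bd K B n Ψ) {x : X}
    (hx : sz x = 0) : ∑ᶠ t, al Ψ x t = 1 := by
  classical
  have hmem := hΨ.mem x
  rw [hx, zero_add] at hmem
  -- the cells of index one
  have h1 : ∀ c ∈ (Ψ x).support, bdE K n c (∅, ∅) = 1 ∧ ∃ v ∈ c.2, c.1 = {v} := by
    intro c hc
    obtain ⟨h2, h3, h4, h5, h6⟩ := (Finsupp.mem_supported _ _).1 hmem (mem_coe.2 hc)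
    have h6' : c.1.card + n = c.2.card + 0 := h6
    have h7 := hM.card_le _ h4
    have h8 := card_pos.2 h2
    have h9 : c.1.card = 1 := by omega
    have h10 : c.2.card = n + 1 := by omega
    refine ⟨?_, ?_⟩
    · unfold bdE
      rw [if_neg h2.ne_empty, if_pos h9, if_pos h10, Finsupp.add_apply, Finsupp.single_apply,
        if_pos rfl, Finsupp.finsetSum_apply, sum_eq_zero, add_zero]
      intro t _
      rw [Finsupp.single_apply, if_neg]
      intro h
      exact h2.ne_empty (congrArg Prod.fst h)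
    · obtain ⟨v, hv⟩ := card_eq_one.1 h9
      refine ⟨v, h3 ?_, hv⟩
      rw [hv]
      exact mem_singleton_self v
  have h2 : bdT K n (Ψ x) (∅, ∅) = ∑ c ∈ (Ψ x).support, Ψ x c := by
    unfold bdT
    rw [Finsupp.linearCombination_apply, Finsupp.sum, Finsupp.finsetSum_apply]
    refine sum_congr rfl fun c hc => ?_
    rw [Finsupp.smul_apply, (h1 c hc).1, smul_eq_mul, mul_one]
  have h3 : bdT K n (Ψ x) (∅, ∅) = 1 := by
    rw [hΨ.bd x, if_pos hx, bd_zero hX hx, map_zero, add_zero, Finsupp.single_apply, if_pos rfl]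
  rw [finsum_eq_sum_of_support_subset (s := (Ψ x).support.image Prod.snd) _ (by
    intro t ht
    obtain ⟨v, _, hne⟩ := exists_ne_zero_of_sum_ne_zero ht
    exact mem_coe.2 (mem_image.2 ⟨({v}, t), Finsupp.mem_support_iff.2 hne, rfl⟩)), ← h3, h2,
    ← sum_fiberwise_of_maps_to (s := (Ψ x).support)
      (t := (Ψ x).support.image Prod.snd) (g := Prod.snd)
      (fun c hc => mem_image_of_mem _ hc)]
  refine sum_congr rfl fun t _ => ?_
  unfold al
  symm
  rw [← sum_subset (s₁ := (t.filter fun v => Ψ x ({v}, t) ≠ 0)) (filter_subset _ _)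
    (fun v hv hv' => by
      by_contra h
      exact hv' (mem_filter.2 ⟨hv, h⟩))]
  refine sum_bij' (fun c hc => (h1 c (mem_filter.1 hc).1).2.choose) (fun v _ => ({v}, t))
    ?_ ?_ ?_ ?_ ?_
  · intro c hc
    have h4 := (h1 c (mem_filter.1 hc).1).2.choose_spec
    have h5 := (mem_filter.1 hc).2
    have h6 : c = ({(h1 c (mem_filter.1 hc).1).2.choose}, t) := Prod.ext h4.2 h5
    refine mem_filter.2 ⟨h5 ▸ h4.1, ?_⟩
    rw [← h6]
    exact Finsupp.mem_support_iff.1 (mem_filter.1 hc).1
  · intro v hv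
    rw [mem_filter] at hv
    exact mem_filter.2 ⟨Finsupp.mem_support_iff.2 hv.2, rfl⟩
  · intro c hc
    have h4 := (h1 c (mem_filter.1 hc).1).2.choose_spec
    exact (Prod.ext h4.2 (mem_filter.1 hc).2).symm
  · intro v hv
    rw [mem_filter] at hv
    have h4 := (h1 ({v}, t) (Finsupp.mem_support_iff.2 hv.2)).2.choose_spec
    exact (singleton_injective h4.2).symm
  · intro c hc
    have h4 := (h1 c (mem_filter.1 hc).1).2.choose_spec
    congr 1
    exact Prod.ext h4.2 (mem_filter.1 hc).2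

theorem al_smul (hΨ : IsPsi P sz bd K B n Ψ) (p : P) (x : X)
    (t : Finset U) : al Ψ (p • x) (p • t) = al Ψ x t := by
  classical
  unfold al
  rw [hΨ.smul p x]
  have hsm : p • t = t.map ⟨fun u => p • u, MulAction.injective p⟩ := by
    rw [Finset.map_eq_image]
    rfl
  conv_lhs => rw [hsm]
  rw [Finset.sum_map]
  refine sum_congr rfl fun v _ => ?_
  rw [← hsm]
  have h1 : (({(⟨fun u => p • u, MulAction.injective p⟩ : U ↪ U) v}, p • t) :
      Finset U × Finset U) = p • (({v}, t) : Finset U × Finset U) := by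
    change _ = (p • ({v} : Finset U), p • t)
    rw [smul_finset_singleton]
    rfl
  rw [h1]
  exact Finsupp.mapDomain_apply (MulAction.injective p) _ _

end Pool.Agent.H84.RX
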