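import Pool.Agent.H84.RX.Al

/-!
# Intersection numbers of abstract cells, second part
-/

set_option autoImplicit false
set_option linter.unusedSectionVars false

open Finset Pointwise

namespace Pool.Agent.H84.RX

open Pool.Agent.H37.TM Pool.Agent.H65.RM

variable {P X U : Type} [Group P] [MulAction P X] [DecidableEq U] [MulAction P U]
  {sz : X → ℕ} {bd : X → (X →₀ ZMod 2)} {K B : Set (Finset U)} {n : ℕ}
  {Ψ : X → (Finset U × Finset U →₀ ZMod 2)} {ht : U → ℕ}

/-- the intersection number of two cells -/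
noncomputable def HH {X U : Type} [DecidableEq U] (K B : Set (Finset U)) (n : ℕ) (ht : U → ℕ)
    (sz : X → ℕ) (Ψ : X → (Finset U × Finset U →₀ ZMod 2)) (x y : X) : ZMod 2 :=
  if sz x + sz y ≤ n then cI K B n ht (n + 1 - (sz x + sz y)) (al Ψ x) (al Ψ y) else 0

/-- the simplices which contain a simplex in the support of the cochain of a cell -/
theorem fin_up (hM : Mfd K B n) (hΨ : IsPsi P sz bd K B n Ψ) (x : X) :
    {t | t ∈ K ∧ ∃ f ⊆ t, al Ψ x f ≠ 0}.Finite := by
  have h1 : {t | t ∈ K ∧ ∃ f ⊆ t, al Ψ x f ≠ 0} =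
      ⋃ f ∈ {f | al Ψ x f ≠ 0}, {t | t ∈ K ∧ f ⊆ t} := by
    ext t
    simp only [Set.mem_ofPred_eq, Set.mem_iUnion, exists_prop]
    constructor
    · rintro ⟨h2, f, h3, h4⟩
      exact ⟨f, h4, h2, h3⟩
    · rintro ⟨f, h4, h2, h3⟩
      exact ⟨h2, f, h3, h4⟩
  rw [h1]
  exact (al_fin x).biUnion fun f hf => hM.locfin f (al_supp hΨ hf).1

/-- the summation of a finite sum -/
theorem fin_cup (hM : Mfd K B n) (hΨ : IsPsi P sz bd K B n Ψ) (x y : X) (j : ℕ) :
    (Function.support fun t => open Classical in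
      if Top K B n t then cup ht j (al Ψ x) (al Ψ y) t else 0).Finite := by
  classical
  refine (fin_up hM hΨ x).subset fun t h => ?_
  rw [Function.mem_support] at h
  by_cases h1 : Top K B n t
  · rw [if_pos h1] at h
    obtain ⟨f, hf, f', _, h2, _⟩ := cup_ne h
    exact ⟨h1.1, f, hf, h2⟩
  · exact absurd (if_neg h1) h

/-- the relation for the sums of cup products -/
theorem rel_aux (hM : Mfd K B n) (hK : Acyc K) (hinj : ∀ s ∈ K, Set.InjOn ht (s : Set U))
    (hΨ : IsPsi P sz bd K B n Ψ) (a b : X) :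
    ∑ x' ∈ (bd a).support, cI K B n ht (n + 1 - (sz a + sz b) + 1) (al Ψ x') (al Ψ b) +
      ∑ y' ∈ (bd b).support, cI K B n ht (n + 1 - (sz a + sz b) + 1) (al Ψ a) (al Ψ y') +
      (cI K B n ht (n + 1 - (sz a + sz b)) (al Ψ a) (al Ψ b) +
        cI K B n ht (n + 1 - (sz a + sz b)) (al Ψ b) (al Ψ a)) = 0 := by
  classical
  obtain ⟨m, hm⟩ : ∃ m, n + 1 - (sz a + sz b) = m := ⟨_, rfl⟩
  rw [hm]
  set x := al Ψ a with hx
  set y := al Ψ b with hy
  -- the cochain `ω`
  let ω : Finset U → ZMod 2 := fun r => if r ∈ K ∧ r.card = n then cup ht (m + 1) x y r else 0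
  have hω1 : ∀ r, ω r ≠ 0 → r ∈ K ∧ r.card = n ∧ cup ht (m + 1) x y r ≠ 0 := by
    intro r hr
    by_cases h : r ∈ K ∧ r.card = n
    · refine ⟨h.1, h.2, ?_⟩
      rwa [show ω r = cup ht (m + 1) x y r from if_pos h] at hr
    · exact absurd (if_neg h) hr
  have hω : ∀ r, ω r ≠ 0 → r ∈ K ∧ r ∉ B ∧ r.card = n := by
    intro r hr
    obtain ⟨h1, h2, h3⟩ := hω1 r hr
    refine ⟨h1, fun h4 => ?_, h2⟩
    obtain ⟨f, hf, f', hf', h5, h6⟩ := cup_ne h3
    have h7 := al_supp hΨ h5
    exact h7.2.1 (hM.bd_down r h4 f hf (hM.ne f h7.1))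
  have hfin : {r | ω r ≠ 0}.Finite := by
    refine (fin_up hM hΨ a).subset fun r hr => ?_
    obtain ⟨h1, h2, h3⟩ := hω1 r hr
    obtain ⟨f, hf, f', hf', h5, h6⟩ := cup_ne h3
    exact ⟨h1, f, hf, h5⟩
  have h1 := stokes hM ω hfin hω
  -- the value on a top simplex
  have h2 : ∀ t, Top K B n t → cob ω t =
      ∑ x' ∈ (bd a).support, cup ht (m + 1) (al Ψ x') y t +
      ∑ y' ∈ (bd b).support, cup ht (m + 1) x (al Ψ y') t +
      (cup ht m x y t + cup ht m y x t) := by
    intro t htT
    have h3 : cob ω t = cob (cup ht (m + 1) x y) t := by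
      unfold cob
      refine sum_congr rfl fun v hv => ?_
      by_cases h4 : (t.erase v).Nonempty
      · have h5 : t.erase v ∈ K := hM.down t htT.1 _ (erase_subset v t) h4
        have h6 : (t.erase v).card = n := by
          rw [card_erase_of_mem hv, htT.2.2]
          rfl
        exact if_pos ⟨h5, h6⟩
      · rw [not_nonempty_iff_eq_empty] at h4
        rw [h4]
        have h5 : ω ∅ = 0 := by
          refine if_neg fun h => ?_
          exact absurd (hM.ne ∅ h.1) Finset.not_nonempty_empty
        rw [h5]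
        symm
        refine cup_zero_l fun f hf => ?_
        rw [subset_empty.1 hf]
        exact al_empty _
    have hK' : ∀ f ⊆ t, f ∈ K ∨ f = ∅ := by
      intro f hf
      rcases f.eq_empty_or_nonempty with h | h
      · exact Or.inr h
      · exact Or.inl (hM.down t htT.1 f hf h)
    rw [h3, cob_cup ht m x y t (hinj t htT.1)]
    congr 1
    congr 1
    · rw [cup_congr (ht := ht) (fun f hf => cob_al hM hK hΨ (hK' f hf)) (fun f _ => rfl),
        cup_sum_l]
    · rw [cup_congr (ht := ht) (fun f _ => rfl) (fun f hf => cob_al hM hK hΨ (hK' f hf)),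
        cup_sum_r]
  -- the sum over the top simplices
  have h3 : ∀ t, (if Top K B n t then cob ω t else 0) =
      ∑ x' ∈ (bd a).support, (if Top K B n t then cup ht (m + 1) (al Ψ x') y t else 0) +
      ∑ y' ∈ (bd b).support, (if Top K B n t then cup ht (m + 1) x (al Ψ y') t else 0) +
      ((if Top K B n t then cup ht m x y t else 0) +
        (if Top K B n t then cup ht m y x t else 0)) := by
    intro t
    by_cases h : Top K B n t
    · simp only [if_pos h]
      exact h2 t h
    · simp only [if_neg h, add_zero, sum_const_zero]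
  rw [finsum_congr h3] at h1
  have f1 : ∀ x' : X, (Function.support fun t =>
      if Top K B n t then cup ht (m + 1) (al Ψ x') y t else 0).Finite := fun x' =>
    fin_cup (ht := ht) hM hΨ x' b (m + 1)
  have f3 : ∀ y' : X, (Function.support fun t =>
      if Top K B n t then cup ht (m + 1) x (al Ψ y') t else 0).Finite := fun y' =>
    fin_cup (ht := ht) hM hΨ a y' (m + 1)
  have f5 : (Function.support fun t => if Top K B n t then cup ht m x y t else 0).Finite :=
    fin_cup (ht := ht) hM hΨ a b m
  have f6 : (Function.support fun t => if Top K B n t then cup ht m y x t else 0).Finite :=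
    fin_cup (ht := ht) hM hΨ b a m
  have g3 : (Function.support fun t => ∑ x' ∈ (bd a).support,
      (if Top K B n t then cup ht (m + 1) (al Ψ x') y t else 0)).Finite := by
    refine Set.Finite.subset (Set.Finite.biUnion (bd a).support.finite_toSet
      fun w _ => f1 w) fun t h => ?_
    obtain ⟨w, hw, hne⟩ := exists_ne_zero_of_sum_ne_zero h
    exact Set.mem_biUnion hw hne
  have g4 : (Function.support fun t => ∑ y' ∈ (bd b).support,
      (if Top K B n t then cup ht (m + 1) x (al Ψ y') t else 0)).Finite := by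
    refine Set.Finite.subset (Set.Finite.biUnion (bd b).support.finite_toSet
      fun w _ => f3 w) fun t h => ?_
    obtain ⟨w, hw, hne⟩ := exists_ne_zero_of_sum_ne_zero h
    exact Set.mem_biUnion hw hne
  have g5 : (Function.support fun t => ∑ x' ∈ (bd a).support,
      (if Top K B n t then cup ht (m + 1) (al Ψ x') y t else 0) +
      ∑ y' ∈ (bd b).support,
        (if Top K B n t then cup ht (m + 1) x (al Ψ y') t else 0)).Finite :=
    (g3.union g4).subset (Function.support_add _ _)
  have g6 : (Function.support fun t => (if Top K B n t then cup ht m x y t else 0) +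
        (if Top K B n t then cup ht m y x t else 0)).Finite :=
    (f5.union f6).subset (Function.support_add _ _)
  rw [finsum_add_distrib g5 g6, finsum_add_distrib g3 g4, finsum_add_distrib f5 f6,
    finsum_sum_comm _ _ fun w _ => f1 w, finsum_sum_comm _ _ fun w _ => f3 w] at h1
  rw [← h1]
  rfl

/-- order zero -/
theorem cI_zero (x y : X) : cI K B n ht 0 (al Ψ x) (al Ψ y) = 0 := by
  classical
  unfold cI
  have h : ∀ t : Finset U, (if Top K B n t then cup ht 0 (al Ψ x) (al Ψ y) t else 0) = 0 := by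
    intro t
    split_ifs
    · unfold cup
      refine sum_eq_zero fun C hC => ?_
      rw [mem_powersetCard] at hC
      have h1 : C = ∅ := card_eq_zero.1 hC.2
      subst h1
      have h2 : face2 ht ∅ t = ∅ := by
        unfold face2 below
        rw [filter_eq_empty_iff]
        intro v _
        simp
      rw [h2, al_empty, mul_zero]
    · rfl
  rw [finsum_congr h, finsum_zero]

/-- the relation -/
theorem HH_rel (hM : Mfd K B n) (hK : Acyc K) (hinj : ∀ s ∈ K, Set.InjOn ht (s : Set U))
    (hX : Cells P sz bd) (hΨ : IsPsi P sz bd K B n Ψ) (x y : X) :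
    lin (fun x' => HH K B n ht sz Ψ x' y) (bd x) + lin (fun y' => HH K B n ht sz Ψ x y') (bd y) =
      HH K B n ht sz Ψ x y + HH K B n ht sz Ψ y x := by
  have key : ∀ a b : ZMod 2, a + b = 0 → a = b := by decide
  have hs : ∀ z, ∀ z' ∈ (bd z).support, sz z' + 1 = sz z := fun z z' hz' =>
    hX.bd_sz z z' (Finsupp.mem_support_iff.1 hz')
  rw [lin_supp, lin_supp]
  by_cases hc : sz x + sz y ≤ n + 1
  · have h1 := rel_aux (ht := ht) hM hK hinj hΨ x y
    apply key
    rw [← h1]
    congr 1
    · congr 1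
      · refine sum_congr rfl fun w hw => ?_
        have h2 := hs x w hw
        have h3 : n + 1 - (sz w + sz y) = n + 1 - (sz x + sz y) + 1 := by omega
        unfold HH
        rw [if_pos (by omega), h3]
      · refine sum_congr rfl fun w hw => ?_
        have h2 := hs y w hw
        have h3 : n + 1 - (sz x + sz w) = n + 1 - (sz x + sz y) + 1 := by omega
        unfold HH
        rw [if_pos (by omega), h3]
    · have h4 : sz y + sz x = sz x + sz y := add_comm _ _
      unfold HH
      rw [h4]
      by_cases h2 : sz x + sz y ≤ n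
      · rw [if_pos h2, if_pos h2]
      · have h3 : n + 1 - (sz x + sz y) = 0 := by omega
        rw [if_neg h2, if_neg h2, h3, cI_zero, cI_zero]
  · unfold HH
    rw [sum_eq_zero, sum_eq_zero, if_neg (by omega), if_neg (by omega)]
    · intro w hw
      have h2 := hs y w hw
      rw [if_neg (by omega)]
    · intro w hw
      have h2 := hs x w hw
      rw [if_neg (by omega)]

/-- the self-intersection of a vertex -/
theorem HH_one (hM : Mfd K B n) (hX : Cells P sz bd) (hΨ : IsPsi P sz bd K B n Ψ) {x : X}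
    (hx : sz x = 0) : HH K B n ht sz Ψ x x = 1 := by
  classical
  unfold HH cI
  rw [hx, add_zero, if_pos (Nat.zero_le n), Nat.sub_zero, ← sum_al hM hX hΨ hx]
  refine finsum_congr fun t => ?_
  by_cases h : Top K B n t
  · rw [if_pos h]
    unfold cup
    rw [← h.2.2, powersetCard_self, sum_singleton]
    have h1 : face1 ht t t = t := filter_true_of_mem fun v hv => Or.inl hv
    have h2 : face2 ht t t = t := filter_true_of_mem fun v hv => Or.inl hv
    rw [h1, h2]
    have h3 : ∀ a : ZMod 2, a * a = a := by decide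
    exact h3 _
  · rw [if_neg h]
    symm
    by_contra hne
    obtain ⟨h1, h2, h3⟩ := al_supp hΨ hne
    rw [hx, add_zero] at h3
    exact h ⟨h1, h2, h3⟩

/-- only finitely many relative positions of two cells have nonzero intersection numbers -/
theorem HH_fin (hM : Mfd K B n) (hΨ : IsPsi P sz bd K B n Ψ) (hA : PAct P K B) (x y : X) :
    {p : P | ∃ q : P, HH K B n ht sz Ψ (q • x) ((q * p) • y) ≠ 0}.Finite := by
  classical
  -- the vertices of the simplices in the support of the cochain of a cell
  have h1 : ∀ z : X, {u | ∃ f, al Ψ z f ≠ 0 ∧ u ∈ f}.Finite := by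
    intro z
    have h2 : {u | ∃ f, al Ψ z f ≠ 0 ∧ u ∈ f} ⊆
        ⋃ f ∈ {f | al Ψ z f ≠ 0}, ((f : Finset U) : Set U) := by
      rintro u ⟨f, hf, hu⟩
      exact Set.mem_biUnion hf hu
    exact Set.Finite.subset ((al_fin z).biUnion fun f _ => f.finite_toSet) h2
  have h5 : ∀ z : X, ∀ u ∈ {u | ∃ f, al Ψ z f ≠ 0 ∧ u ∈ f}, ({u} : Finset U) ∈ K := by
    rintro z u ⟨f, hf, hu⟩
    exact hM.down f (al_supp hΨ hf).1 _ (singleton_subset_iff.2 hu) (singleton_nonempty u)
  have h3 : {h : P | ∃ u u' : U, (∃ f, al Ψ x f ≠ 0 ∧ u ∈ f) ∧ (∃ f, al Ψ y f ≠ 0 ∧ u' ∈ f) ∧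
      ∃ t ∈ K, u ∈ t ∧ h • u' ∈ t}.Finite := by
    have h4 : ∀ u ∈ {u | ∃ f, al Ψ x f ≠ 0 ∧ u ∈ f}, {w | ∃ t ∈ K, u ∈ t ∧ w ∈ t}.Finite := by
      intro u hu
      have h6 := h5 x u hu
      have h7 : {w | ∃ t ∈ K, u ∈ t ∧ w ∈ t} ⊆
          ⋃ t ∈ {t | t ∈ K ∧ {u} ⊆ t}, ((t : Finset U) : Set U) := by
        rintro w ⟨t, ht1, ht2, ht3⟩
        exact Set.mem_biUnion (show t ∈ {t | t ∈ K ∧ {u} ⊆ t} from
          ⟨ht1, singleton_subset_iff.2 ht2⟩) ht3
      exact ((hM.locfin _ h6).biUnion fun t _ => t.finite_toSet).subset h7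
    refine Set.Finite.subset ((h1 x).biUnion fun u hu => (h1 y).biUnion fun u' hu' =>
      (h4 u hu).biUnion fun w _ => hA.proper u' w (h5 y u' hu')) ?_
    rintro h ⟨u, u', hu, hu', t, ht1, ht2, ht3⟩
    exact Set.mem_biUnion hu (Set.mem_biUnion hu' (Set.mem_biUnion
      (show h • u' ∈ {w | ∃ t ∈ K, u ∈ t ∧ w ∈ t} from ⟨t, ht1, ht2, ht3⟩) rfl))
  refine h3.subset ?_
  rintro p ⟨q, hne⟩
  unfold HH at hne
  split_ifs at hne with hc
  · -- a top simplex with a nonzero cup product
    have h5 : ∃ t, (if Top K B n t then cup ht (n + 1 - (sz (q • x) + sz ((q * p) • y)))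
        (al Ψ (q • x)) (al Ψ ((q * p) • y)) t else 0) ≠ 0 := by
      by_contra hcon
      push Not at hcon
      apply hne
      unfold cI
      rw [finsum_congr hcon, finsum_zero]
    obtain ⟨t, htne⟩ := h5
    by_cases hT : Top K B n t
    · rw [if_pos hT] at htne
      obtain ⟨f, hf, f', hf', h6, h7⟩ := cup_ne htne
      have e1 : al Ψ (q • x) f = al Ψ x (q⁻¹ • f) := by
        have := al_smul hΨ q x (q⁻¹ • f)
        rwa [smul_inv_smul] at this
      have e2 : al Ψ ((q * p) • y) f' = al Ψ y ((q * p)⁻¹ • f') := by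
        have := al_smul hΨ (q * p) y ((q * p)⁻¹ • f')
        rwa [smul_inv_smul] at this
      obtain ⟨u, hu⟩ := hM.ne f (al_supp hΨ h6).1
      obtain ⟨u', hu'⟩ := hM.ne f' (al_supp hΨ h7).1
      rw [e1] at h6
      rw [e2] at h7
      refine ⟨q⁻¹ • u, (q * p)⁻¹ • u', ⟨_, h6, smul_mem_smul_finset hu⟩,
        ⟨_, h7, smul_mem_smul_finset hu'⟩, q⁻¹ • t, hA.K_mem q⁻¹ t hT.1,
        smul_mem_smul_finset (hf hu), ?_⟩
      rw [← mul_smul, mul_inv_rev, mul_inv_cancel_left]
      exact smul_mem_smul_finset (hf' hu')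
    · exact absurd (if_neg hT) htne
  · exact absurd rfl hne

/-- The equivariant chain map from the cells to the complex of pairs. -/
theorem exists_psi_cells (hX : Cells P sz bd) (hM : Mfd K B n) (hK : Acyc K)
    (hA : PAct P K B) : ∃ Ψ : X → (Finset U × Finset U →₀ ZMod 2), IsPsi P sz bd K B n Ψ := by
  classical
  obtain ⟨H, h1, h2, h3⟩ := lift_free (Γ := P) (A := X)
    (N := Finset U × Finset U →₀ ZMod 2) (fun i => {x | sz x = i})
    (fun i g c hc' => (hX.sz_smul g c).trans hc') (fun i j c hi hj => hi.symm.trans hj)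
    (fun i c _ g h => hX.free g c h)
    bd (fun i c hc' b hb => by
      have h4 := hX.bd_sz c b hb
      have h5 : sz c = i + 1 := hc'
      exact (by omega : sz b = i))
    (fun c hc' => bd_zero hX hc')
    (fun i g c _ => hX.bd_smul g c) (fun i c _ => hX.bd_bd c)
    (rhoE P U) (bdT K n) (fun g x => bdT_smul hA g x)
    (TN K B n) (fun i g x hx => tn_smul hA g i x hx)
    (fun i _ x hx h0 => tot_exact hM (hK.lt i) i le_rfl x hx h0)
    (fun c => if sz c = 0 then Finsupp.single (∅, ∅) 1 else 0)
    (fun i c hc' => by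
      split_ifs with h
      · have hi : i = 0 := hc'.symm.trans h
        subst hi
        exact Finsupp.single_mem_supported (ZMod 2) (1 : ZMod 2)
          (show ((∅ : Finset U), (∅ : Finset U)) ∈ TCell K B n 0 from rfl)
      · exact Submodule.zero_mem _)
    (fun i g c _ => by
      change (if sz (g • c) = 0 then Finsupp.single ((∅ : Finset U), (∅ : Finset U)) (1 : ZMod 2)
          else 0) =
        (if sz c = 0 then Finsupp.single ((∅ : Finset U), (∅ : Finset U)) (1 : ZMod 2)
          else 0).mapDomain (g • ·)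
      rw [hX.sz_smul]
      split_ifs with h
      · rw [Finsupp.mapDomain_single]
        congr 1
      · rw [Finsupp.mapDomain_zero])
    (fun i c _ => by
      have hL : bdT K n (if sz c = 0 then Finsupp.single ((∅ : Finset U), (∅ : Finset U))
          (1 : ZMod 2) else 0) = 0 := by
        split_ifs with h
        · change lin (bdE K n) (Finsupp.single ((∅ : Finset U), (∅ : Finset U)) (1 : ZMod 2)) = 0
          rw [lin_single]
          unfold bdE
          rw [if_pos rfl]
        · rw [map_zero]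
      rw [hL, lin_supp]
      symm
      by_cases h1 : sz c = 1
      · have h4 := hX.aug c h1
        rw [lin_supp] at h4
        have h5 : ∀ b ∈ (bd c).support, (if sz b = 0 then
            Finsupp.single ((∅ : Finset U), (∅ : Finset U)) (1 : ZMod 2) else 0) =
            (1 : ZMod 2) • Finsupp.single ((∅ : Finset U), (∅ : Finset U)) (1 : ZMod 2) := by
          intro b hb
          have h6 := hX.bd_sz c b (Finsupp.mem_support_iff.1 hb)
          rw [if_pos (by omega), one_smul]
        rw [sum_congr rfl h5, ← Finset.sum_smul, h4, zero_smul]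
      · refine sum_eq_zero fun b hb => ?_
        have h6 := hX.bd_sz c b (Finsupp.mem_support_iff.1 hb)
        exact if_neg (by omega))
  exact ⟨H, fun x => h1 (sz x) x rfl, fun p x => h2 (sz x) p x rfl, fun x => h3 (sz x) x rfl⟩

/-- **Intersection numbers of abstract cells.** -/
theorem exists_inter_cells (hX : Cells P sz bd) (hM : Mfd K B n) (hK : Acyc K)
    (hA : PAct P K B) : ∃ H : X → X → ZMod 2, InterX P sz bd n H := by
  obtain ⟨Ψ, hΨ⟩ := exists_psi_cells hX hM hK hA
  obtain ⟨ht, hinj⟩ := exists_height hM hK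
  exact ⟨HH K B n ht sz Ψ, HH_rel hM hK hinj hX hΨ,
    fun x y h => by
      unfold HH
      rw [if_neg (by omega)],
    fun x hx => HH_one hM hX hΨ hx, HH_fin hM hΨ hA⟩

end Pool.Agent.H84.RX
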